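import Mathlib

namespace Pool.Agent.X86.PH

open TensorProduct

/-- The algebra `k^K` of functions on a finite group `K`. -/
def Fun (k K : Type) : Type := K → k

set_option linter.unusedSectionVars false

section

variable {k K : Type} [Field k] [Group K] [Fintype K] [DecidableEq K]

instance : CommRing (Fun k K) := inferInstanceAs (CommRing (K → k))
instance : Algebra k (Fun k K) := inferInstanceAs (Algebra k (K → k))

/-- The indicator function of `g`. -/
def dl (g : K) : Fun k K := fun x => if x = g then 1 else 0

theorem dl_apply (g x : K) : (dl g : Fun k K) x = if x = g then 1 else 0 := rfl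

@[ext] theorem Fun.ext {f f' : Fun k K} (h : ∀ x, f x = f' x) : f = f' := funext h

theorem dl_mul (g h : K) : (dl g : Fun k K) * dl h = if g = h then dl g else 0 := by
  ext x
  change (if x = g then (1 : k) else 0) * (if x = h then 1 else 0) = _
  by_cases h1 : x = g
  · subst h1
    by_cases h2 : x = h
    · subst h2; simp [dl_apply]
    · rw [if_neg h2, if_neg h2]; simp; rfl
  · by_cases h2 : g = h
    · subst h2; simp [h1, dl_apply]
    · rw [if_neg h1, if_neg h2]; simp; rfl

theorem fun_sum_apply {ι : Type} (s : Finset ι) (F : ι → Fun k K) (x : K) :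
    (∑ i ∈ s, F i) x = ∑ i ∈ s, F i x := Finset.sum_apply x s F

theorem one_eq : (1 : Fun k K) = ∑ g, dl g := by
  ext x
  rw [fun_sum_apply]
  simp only [dl_apply, Finset.sum_ite_eq, Finset.mem_univ, if_true]
  rfl

theorem expand (f : Fun k K) : f = ∑ g, f g • dl g := by
  ext x
  rw [fun_sum_apply]
  change f x = ∑ g, f g * (if x = g then 1 else 0)
  rw [Finset.sum_eq_single x]
  · rw [if_pos rfl, mul_one]
  · intro y _ hy
    rw [if_neg (Ne.symm hy), mul_zero]
  · intro h
    exact absurd (Finset.mem_univ x) h

/-- Linear maps out of `k^K` are determined on indicator functions. -/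
theorem lin_ext {N : Type} [AddCommMonoid N] [Module k N] {a b : Fun k K →ₗ[k] N}
    (h : ∀ g, a (dl g) = b (dl g)) : a = b := by
  apply LinearMap.ext
  intro f
  rw [expand f, map_sum, map_sum]
  exact Finset.sum_congr rfl fun g _ => by rw [map_smul, map_smul, h]

/-- The linear map out of `k^K` with given values. -/
def mkLin {N : Type} [AddCommMonoid N] [Module k N] (F : K → N) : Fun k K →ₗ[k] N where
  toFun f := ∑ g, f g • F g
  map_add' a b := by
    rw [← Finset.sum_add_distrib]
    exact Finset.sum_congr rfl fun g _ => add_smul _ _ _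
  map_smul' c a := by
    rw [RingHom.id_apply, Finset.smul_sum]
    exact Finset.sum_congr rfl fun g _ => mul_smul _ _ _

theorem mkLin_dl {N : Type} [AddCommMonoid N] [Module k N] (F : K → N) (g : K) :
    mkLin (k := k) F (dl g) = F g := by
  change ∑ x, (dl g : Fun k K) x • F x = F g
  simp [dl_apply]

instance : CoalgebraStruct k (Fun k K) where
  comul := mkLin fun g => ∑ x, dl x ⊗ₜ[k] dl (x⁻¹ * g)
  counit := mkLin fun g => if g = 1 then 1 else 0

theorem comul_dl (g : K) : CoalgebraStruct.comul (R := k) (dl g : Fun k K)
    = ∑ x, dl x ⊗ₜ[k] dl (x⁻¹ * g) := mkLin_dl _ g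

theorem counit_dl (g : K) : CoalgebraStruct.counit (R := k) (dl g : Fun k K)
    = if g = 1 then 1 else 0 := mkLin_dl _ g

instance : Coalgebra k (Fun k K) where
  coassoc := by
    apply lin_ext
    intro g
    simp only [LinearMap.comp_apply, comul_dl, map_sum, LinearMap.rTensor_tmul,
      LinearMap.lTensor_tmul, TensorProduct.sum_tmul, TensorProduct.tmul_sum]
    change ∑ x, ∑ y, TensorProduct.assoc k (Fun k K) (Fun k K) (Fun k K)
      ((dl y ⊗ₜ[k] dl (y⁻¹ * x)) ⊗ₜ[k] dl (x⁻¹ * g)) = _
    simp only [TensorProduct.assoc_tmul]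
    rw [Finset.sum_comm]
    refine Finset.sum_congr rfl fun y _ => ?_
    refine Fintype.sum_equiv (Equiv.mulLeft y⁻¹) _ _ fun x => ?_
    simp [mul_assoc]
  rTensor_counit_comp_comul := by
    apply lin_ext
    intro g
    simp only [LinearMap.comp_apply, comul_dl, map_sum, LinearMap.rTensor_tmul, counit_dl,
      TensorProduct.mk_apply]
    rw [Finset.sum_eq_single 1]
    · simp
    · intro x _ hx
      rw [if_neg hx, TensorProduct.zero_tmul]
    · simp
  lTensor_counit_comp_comul := by
    apply lin_ext
    intro g
    simp only [LinearMap.comp_apply, comul_dl, map_sum, LinearMap.lTensor_tmul, counit_dl,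
      LinearMap.flip_apply, TensorProduct.mk_apply]
    rw [Finset.sum_eq_single g]
    · simp
    · intro x _ hx
      rw [if_neg, TensorProduct.tmul_zero]
      intro h
      rw [inv_mul_eq_one] at h
      exact hx h
    · simp

theorem counit_mul' (a b : Fun k K) : CoalgebraStruct.counit (R := k) (a * b)
    = CoalgebraStruct.counit (R := k) a * CoalgebraStruct.counit (R := k) b := by
  have h : ∀ a : Fun k K, CoalgebraStruct.counit (R := k) a = a 1 := by
    intro a
    change ∑ g, a g • (if g = 1 then (1 : k) else 0) = a 1
    rw [Finset.sum_eq_single 1]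
    · rw [if_pos rfl, smul_eq_mul, mul_one]
    · intro y _ hy
      rw [if_neg hy, smul_zero]
    · intro h
      exact absurd (Finset.mem_univ 1) h
  rw [h, h, h]
  rfl

theorem comul_mul' (a b : Fun k K) : CoalgebraStruct.comul (R := k) (a * b)
    = CoalgebraStruct.comul (R := k) a * CoalgebraStruct.comul (R := k) b := by
  have key : (LinearMap.mul k (Fun k K)).compr₂ (CoalgebraStruct.comul (R := k))
      = (LinearMap.mul k (Fun k K ⊗[k] Fun k K)).compl₁₂ (CoalgebraStruct.comul (R := k))
        (CoalgebraStruct.comul (R := k)) := by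
    apply lin_ext
    intro g
    apply lin_ext
    intro h
    simp only [LinearMap.compr₂_apply, LinearMap.compl₁₂_apply, LinearMap.mul_apply', comul_dl,
      dl_mul, Finset.sum_mul_sum, Algebra.TensorProduct.tmul_mul_tmul]
    have h1 : ∀ x ∈ Finset.univ, ∑ y : K, ((if x = y then (dl x : Fun k K) else 0) ⊗ₜ[k]
        (if x⁻¹ * g = y⁻¹ * h then (dl (x⁻¹ * g) : Fun k K) else 0))
        = (dl x : Fun k K) ⊗ₜ[k] (if g = h then (dl (x⁻¹ * g) : Fun k K) else 0) := by
      intro x _
      rw [Finset.sum_eq_single x]
      · simp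
      · intro y _ hy
        rw [if_neg (Ne.symm hy), TensorProduct.zero_tmul]
      · simp
    rw [Finset.sum_congr rfl h1]
    by_cases hgh : g = h
    · subst hgh
      simp only [if_true, comul_dl]
    · simp [hgh]
  exact LinearMap.congr_fun (LinearMap.congr_fun key a) b

instance : Bialgebra k (Fun k K) :=
  Bialgebra.mk' k (Fun k K)
    (by
      change CoalgebraStruct.counit (R := k) (1 : Fun k K) = 1
      rw [one_eq, map_sum]
      simp [counit_dl])
    (fun {a b} => counit_mul' a b)
    (by
      change CoalgebraStruct.comul (R := k) (1 : Fun k K) = 1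
      rw [Algebra.TensorProduct.one_def, one_eq, map_sum, TensorProduct.sum_tmul]
      simp only [comul_dl, TensorProduct.tmul_sum]
      rw [Finset.sum_comm]
      refine Finset.sum_congr rfl fun x _ => ?_
      exact Fintype.sum_equiv (Equiv.mulLeft x⁻¹) _ _ fun y => rfl)
    (fun {a b} => comul_mul' a b)

instance : HopfAlgebraStruct k (Fun k K) where
  antipode := mkLin fun g => dl g⁻¹

theorem antipode_dl (g : K) : HopfAlgebraStruct.antipode k (dl g : Fun k K) = dl g⁻¹ :=
  mkLin_dl _ g

instance : HopfAlgebra k (Fun k K) where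
  mul_antipode_rTensor_comul := by
    apply lin_ext
    intro g
    simp only [LinearMap.comp_apply, comul_dl, map_sum, LinearMap.rTensor_tmul, antipode_dl,
      LinearMap.mul'_apply, dl_mul, counit_dl, Algebra.linearMap_apply]
    by_cases hg : g = 1
    · subst hg
      simp only [mul_one, if_true, map_one, one_eq]
      exact Fintype.sum_equiv (Equiv.inv K) _ _ fun x => rfl
    · simp [hg]
  mul_antipode_lTensor_comul := by
    apply lin_ext
    intro g
    simp only [LinearMap.comp_apply, comul_dl, map_sum, LinearMap.lTensor_tmul, antipode_dl,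
      LinearMap.mul'_apply, dl_mul, counit_dl, Algebra.linearMap_apply, mul_inv_rev, inv_inv]
    by_cases hg : g = 1
    · subst hg
      simp only [inv_one, one_mul, if_true, map_one, one_eq]
    · simp [hg]

instance : IsSemisimpleRing (Fun k K) := inferInstanceAs (IsSemisimpleRing (K → k))

end

end Pool.Agent.X86.PH
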