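import Mathlib
import Pool.Agent.X86.PH.Fun

set_option linter.unusedSectionVars false

namespace Pool.Agent.X86.PH

open TensorProduct

section Hpar

variable (k H : Type) [Field k] [Ring H] [HopfAlgebra k H]

variable {k H} in
/-- For linear maps `f, g : H → B` into an algebra, the linear map `H ⊗ H → B` with
`a ⊗ b ↦ f a * g b`. -/
noncomputable def bil {B : Type} [Ring B] [Algebra k B] (f g : H →ₗ[k] B) : H ⊗[k] H →ₗ[k] B :=
  TensorProduct.lift ((LinearMap.mul k B).compl₁₂ f g)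

variable {k H} in
theorem bil_tmul {B : Type} [Ring B] [Algebra k B] (f g : H →ₗ[k] B) (a b : H) :
    bil f g (a ⊗ₜ b) = f a * g b := rfl

open LinearMap in
/-- The defining relations of `H_par` on the tensor algebra `T(H)`:
* `1_H = 1`,
* `h ⊗ x₁ ⊗ S(x₂) = h x₁ ⊗ S(x₂)`,
* `h₁ ⊗ S(h₂) ⊗ x = h₁ ⊗ S(h₂) x`. -/
inductive ParRel : TensorAlgebra k H → TensorAlgebra k H → Prop
  | one : ParRel (TensorAlgebra.ι k (1 : H)) 1
  | left (h x : H) : ParRel
      (bil (mulLeft k (TensorAlgebra.ι k h) ∘ₗ TensorAlgebra.ι k)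
        (TensorAlgebra.ι k ∘ₗ HopfAlgebraStruct.antipode k) (CoalgebraStruct.comul (R := k) x))
      (bil (TensorAlgebra.ι k ∘ₗ mulLeft k h)
        (TensorAlgebra.ι k ∘ₗ HopfAlgebraStruct.antipode k) (CoalgebraStruct.comul (R := k) x))
  | right (h x : H) : ParRel
      (bil (TensorAlgebra.ι k)
        (mulRight k (TensorAlgebra.ι k x) ∘ₗ TensorAlgebra.ι k ∘ₗ HopfAlgebraStruct.antipode k)
        (CoalgebraStruct.comul (R := k) h))
      (bil (TensorAlgebra.ι k)
        (TensorAlgebra.ι k ∘ₗ mulRight k x ∘ₗ HopfAlgebraStruct.antipode k)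
        (CoalgebraStruct.comul (R := k) h))

/-- The partial Hopf algebra `H_par = T(H) / I`. -/
abbrev Hpar : Type := RingQuot (ParRel k H)

variable {k H}

/-- The canonical map `h ↦ [h]`. -/
noncomputable def Hpar.ι : H →ₗ[k] Hpar k H :=
  (RingQuot.mkAlgHom k (ParRel k H)).toLinearMap ∘ₗ TensorAlgebra.ι k

/-- Partial representations. -/
structure IsParRep {B : Type} [Ring B] [Algebra k B] (π : H →ₗ[k] B) : Prop where
  one : π 1 = 1
  left : ∀ h x : H, bil (LinearMap.mulLeft k (π h) ∘ₗ π) (π ∘ₗ HopfAlgebraStruct.antipode k)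
      (CoalgebraStruct.comul (R := k) x) =
    bil (π ∘ₗ LinearMap.mulLeft k h) (π ∘ₗ HopfAlgebraStruct.antipode k)
      (CoalgebraStruct.comul (R := k) x)
  right : ∀ h x : H, bil π (LinearMap.mulRight k (π x) ∘ₗ π ∘ₗ HopfAlgebraStruct.antipode k)
      (CoalgebraStruct.comul (R := k) h) =
    bil π (π ∘ₗ LinearMap.mulRight k x ∘ₗ HopfAlgebraStruct.antipode k)
      (CoalgebraStruct.comul (R := k) h)

theorem map_bil {B C : Type} [Ring B] [Algebra k B] [Ring C] [Algebra k C] (φ : B →ₐ[k] C)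
    (f g : H →ₗ[k] B) (t : H ⊗[k] H) :
    φ (bil f g t) = bil (φ.toLinearMap ∘ₗ f) (φ.toLinearMap ∘ₗ g) t := by
  induction t using TensorProduct.induction_on with
  | zero => simp
  | tmul a b => simp [bil_tmul]
  | add x y hx hy => rw [map_add, map_add, map_add, hx, hy]

theorem IsParRep.exists_hom {B : Type} [Ring B] [Algebra k B] {π : H →ₗ[k] B}
    (hπ : IsParRep π) : ∃ α : Hpar k H →ₐ[k] B, ∀ h, α (Hpar.ι h) = π h := by
  let φ : TensorAlgebra k H →ₐ[k] B := TensorAlgebra.lift k π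
  have hφ : ∀ h, φ (TensorAlgebra.ι k h) = π h := fun h => TensorAlgebra.lift_ι_apply π h
  have hφ' : φ.toLinearMap ∘ₗ TensorAlgebra.ι k = π := by
    ext h; exact hφ h
  have hrel : ∀ ⦃x y⦄, ParRel k H x y → φ x = φ y := by
    rintro _ _ (_ | ⟨h, x⟩ | ⟨h, x⟩)
    · rw [hφ, hπ.one, map_one]
    · rw [map_bil, map_bil]
      have h1 : φ.toLinearMap ∘ₗ (LinearMap.mulLeft k (TensorAlgebra.ι k h)) ∘ₗ
          TensorAlgebra.ι k = LinearMap.mulLeft k (π h) ∘ₗ π := by
        ext y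
        simp [hφ]
      have h2 : φ.toLinearMap ∘ₗ TensorAlgebra.ι k ∘ₗ HopfAlgebraStruct.antipode k
          = π ∘ₗ HopfAlgebraStruct.antipode k := by
        rw [← LinearMap.comp_assoc, hφ']
      have h3 : φ.toLinearMap ∘ₗ TensorAlgebra.ι k ∘ₗ LinearMap.mulLeft k h
          = π ∘ₗ LinearMap.mulLeft k h := by
        rw [← LinearMap.comp_assoc, hφ']
      rw [h1, h2, h3]
      exact hπ.left h x
    · rw [map_bil, map_bil]
      have h1 : φ.toLinearMap ∘ₗ (LinearMap.mulRight k (TensorAlgebra.ι k x)) ∘ₗ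
          TensorAlgebra.ι k ∘ₗ HopfAlgebraStruct.antipode k
          = LinearMap.mulRight k (π x) ∘ₗ π ∘ₗ HopfAlgebraStruct.antipode k := by
        ext y
        simp [hφ]
      have h2 : φ.toLinearMap ∘ₗ TensorAlgebra.ι k ∘ₗ LinearMap.mulRight k x ∘ₗ
          HopfAlgebraStruct.antipode k
          = π ∘ₗ LinearMap.mulRight k x ∘ₗ HopfAlgebraStruct.antipode k := by
        rw [← LinearMap.comp_assoc, hφ']
      rw [h1, h2, hφ']
      exact hπ.right h x
  refine ⟨RingQuot.liftAlgHom k ⟨φ, hrel⟩, fun h => ?_⟩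
  change RingQuot.liftAlgHom k ⟨φ, hrel⟩ (RingQuot.mkAlgHom k (ParRel k H)
    (TensorAlgebra.ι k h)) = π h
  rw [RingQuot.liftAlgHom_mkAlgHom_apply, hφ]

theorem Hpar.induction {C : Hpar k H → Prop} (hι : ∀ h, C (Hpar.ι h))
    (hscal : ∀ r : k, C (algebraMap k _ r)) (hmul : ∀ a b, C a → C b → C (a * b))
    (hadd : ∀ a b, C a → C b → C (a + b)) (x : Hpar k H) : C x := by
  obtain ⟨t, rfl⟩ := RingQuot.mkAlgHom_surjective k (ParRel k H) x
  induction t using TensorAlgebra.induction with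
  | algebraMap r => rw [AlgHom.commutes]; exact hscal r
  | ι x => exact hι x
  | mul a b ha hb => rw [map_mul]; exact hmul _ _ ha hb
  | add a b ha hb => rw [map_add]; exact hadd _ _ ha hb

/-- A nonzero element `α ζ` of square zero commuting with the image of `H_par` obstructs
semisimplicity. -/
theorem not_semisimple {V : Type} [AddCommGroup V] [Module k V]
    (α : Hpar k H →ₐ[k] Module.End k V) (ζ : Hpar k H) (hne : α ζ ≠ 0) (hsq : α ζ * α ζ = 0)
    (hcomm : ∀ h : H, α ζ * α (Hpar.ι h) = α (Hpar.ι h) * α ζ) :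
    ¬ IsSemisimpleRing (Hpar k H) := by
  intro hss
  have hcomm' : ∀ x, α ζ * α x = α x * α ζ := by
    intro x
    induction x using Hpar.induction with
    | hι h => exact hcomm h
    | hscal r => rw [AlgHom.commutes]; exact (Algebra.commutes r _).symm
    | hmul a b ha hb => rw [map_mul, ← mul_assoc, ha, mul_assoc, hb, mul_assoc]
    | hadd a b ha hb => rw [map_add, mul_add, add_mul, ha, hb]
  let _ : Module (Hpar k H) V := Module.compHom V (α : Hpar k H →+* Module.End k V)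
  have hsmul : ∀ (x : Hpar k H) (v : V), x • v = α x v := fun _ _ => rfl
  let U : Submodule (Hpar k H) V :=
    { carrier := {v | ∃ w, v = α ζ w}
      zero_mem' := ⟨0, by simp⟩
      add_mem' := by
        rintro _ _ ⟨a, rfl⟩ ⟨b, rfl⟩
        exact ⟨a + b, by rw [map_add]⟩
      smul_mem' := by
        rintro c _ ⟨a, rfl⟩
        refine ⟨α c a, ?_⟩
        rw [hsmul, ← Module.End.mul_apply, ← hcomm', Module.End.mul_apply] }
  have : IsSemisimpleModule (Hpar k H) V := inferInstance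
  obtain ⟨C, hC⟩ := exists_isCompl U
  apply hne
  ext v
  have hv : v ∈ U ⊔ C := by rw [hC.sup_eq_top]; trivial
  obtain ⟨u, ⟨w, rfl⟩, c, hc, rfl⟩ := Submodule.mem_sup.1 hv
  have h1 : α ζ (α ζ w + c) = α ζ c := by
    rw [map_add, ← Module.End.mul_apply, hsq]; simp
  have h2 : α ζ c ∈ C := by
    rw [← hsmul]; exact C.smul_mem ζ hc
  have h3 : α ζ c ∈ U := ⟨c, rfl⟩
  have h4 : α ζ c ∈ U ⊓ C := ⟨h3, h2⟩
  rw [hC.inf_eq_bot, Submodule.mem_bot] at h4
  rw [h1, h4]
  rfl

end Hpar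

end Pool.Agent.X86.PH
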