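import Mathlib
import Pool.Agent.X86.PH.Par

set_option linter.unusedSectionVars false

namespace Pool.Agent.X86.PH

open TensorProduct

section construction

variable {Γ K : Type} [Group Γ] [Fintype Γ] [DecidableEq Γ] [Group K] [Fintype K] [DecidableEq K]
  (q : Γ →* K) (e : Γ → ZMod 2)


/-- Left translation. -/
def Lt (a : Γ) : Module.End (ZMod 2) (Γ → ZMod 2) where
  toFun w g := w (a⁻¹ * g)
  map_add' _ _ := rfl
  map_smul' _ _ := rfl

theorem Lt_mul (a b : Γ) : Lt a * Lt b = Lt (a * b) := by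
  refine LinearMap.ext fun w => funext fun g => ?_
  change w (b⁻¹ * (a⁻¹ * g)) = w ((a * b)⁻¹ * g)
  rw [mul_inv_rev, mul_assoc]

theorem Lt_one : Lt (1 : Γ) = 1 := by
  refine LinearMap.ext fun w => funext fun g => ?_
  change w (1⁻¹ * g) = w g
  rw [inv_one, one_mul]

/-- Multiplication by a function on `K`. -/
def Dg : Fun (ZMod 2) K →ₗ[(ZMod 2)] Module.End (ZMod 2) (Γ → ZMod 2) where
  toFun f :=
    { toFun := fun w g => f (q g) * w g
      map_add' := fun w w' => by ext g; exact mul_add _ _ _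
      map_smul' := fun c w => by ext g; exact mul_left_comm _ _ _ }
  map_add' f f' := LinearMap.ext fun w => funext fun g => add_mul _ _ _
  map_smul' c f := LinearMap.ext fun w => funext fun g => mul_assoc _ _ _

theorem Dg_mul (f f' : Fun (ZMod 2) K) : Dg q f * Dg q f' = Dg q (f * f') := by
  refine LinearMap.ext fun w => funext fun g => ?_
  exact (mul_assoc _ _ _).symm

theorem Dg_one : Dg q (1 : Fun (ZMod 2) K) = 1 := by
  refine LinearMap.ext fun w => funext fun g => ?_
  exact one_mul _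

theorem Dg_Lt (x : K) (a : Γ) : Dg q (dl x) * Lt a = Lt a * Dg q (dl ((q a)⁻¹ * x)) := by
  refine LinearMap.ext fun w => funext fun g => ?_
  change (dl x : Fun (ZMod 2) K) (q g) * w (a⁻¹ * g)
    = (dl ((q a)⁻¹ * x) : Fun (ZMod 2) K) (q (a⁻¹ * g)) * w (a⁻¹ * g)
  congr 1
  rw [dl_apply, dl_apply, map_mul, map_inv]
  congr 1
  rw [mul_right_inj]

/-- The operator `P`. -/
def Pe : Module.End (ZMod 2) (Γ → ZMod 2) := ∑ a, e a • Lt a

/-- The homogeneous components of `P`. -/
def Ee (f : Fun (ZMod 2) K) : Module.End (ZMod 2) (Γ → ZMod 2) := ∑ a, (f (q a) * e a) • Lt a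

variable {e}

theorem Lt_Pe (hconj : ∀ a g, e (g * a * g⁻¹) = e a) (a : Γ) : Lt a * Pe e = Pe e * Lt a := by
  rw [Pe, Finset.mul_sum, Finset.sum_mul]
  refine Fintype.sum_equiv (MulAut.conj a).toEquiv _ _ fun b => ?_
  rw [mul_smul_comm, smul_mul_assoc, Lt_mul, Lt_mul]
  change e b • Lt (a * b) = e (a * b * a⁻¹) • Lt (a * b * a⁻¹ * a)
  rw [hconj, inv_mul_cancel_right]

theorem Pe_sq (hidem : ∀ c, ∑ a, e a * e (a⁻¹ * c) = e c) : Pe e * Pe e = Pe e := by
  rw [Pe, Finset.sum_mul]
  have h1 : ∀ a ∈ Finset.univ, (e a • Lt a) * ∑ b, e b • Lt b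
      = ∑ c, (e a * e (a⁻¹ * c)) • Lt c := by
    intro a _
    rw [Finset.mul_sum]
    refine Fintype.sum_equiv (Equiv.mulLeft a) _ _ fun b => ?_
    rw [smul_mul_smul_comm, Lt_mul]
    simp
  rw [Finset.sum_congr rfl h1, Finset.sum_comm]
  refine Finset.sum_congr rfl fun c _ => ?_
  rw [← Finset.sum_smul, hidem]

theorem Ee_Pe (hconj : ∀ a g, e (g * a * g⁻¹) = e a) (f : Fun (ZMod 2) K) :
    Ee q e f * Pe e = Pe e * Ee q e f := by
  rw [Ee, Finset.sum_mul, Finset.mul_sum]
  refine Finset.sum_congr rfl fun a _ => ?_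
  rw [smul_mul_assoc, mul_smul_comm, Lt_Pe hconj]

theorem bil_comul (f : Fun (ZMod 2) K) :
    bil (LinearMap.mulRight (ZMod 2) (Pe e) ∘ₗ Dg q) (Dg q ∘ₗ HopfAlgebraStruct.antipode (ZMod 2))
      (CoalgebraStruct.comul (R := (ZMod 2)) f) = Ee q e f := by
  let Elin : Fun (ZMod 2) K →ₗ[(ZMod 2)] Module.End (ZMod 2) (Γ → ZMod 2) :=
    { toFun := Ee q e
      map_add' := by
        intro f f'
        rw [Ee, Ee, Ee, ← Finset.sum_add_distrib]
        refine Finset.sum_congr rfl fun a _ => ?_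
        rw [← add_smul]
        congr 1
        exact add_mul _ _ _
      map_smul' := by
        intro c f
        rw [Ee, Ee, Finset.smul_sum]
        refine Finset.sum_congr rfl fun a _ => ?_
        rw [smul_smul]
        congr 1
        exact mul_assoc _ _ _ }
  have key : bil (LinearMap.mulRight (ZMod 2) (Pe e) ∘ₗ Dg q) (Dg q ∘ₗ HopfAlgebraStruct.antipode (ZMod 2))
      ∘ₗ (CoalgebraStruct.comul (R := (ZMod 2))) = Elin := by
    apply lin_ext
    intro g
    rw [LinearMap.comp_apply, comul_dl, map_sum]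
    change ∑ x, bil (LinearMap.mulRight (ZMod 2) (Pe e) ∘ₗ Dg q)
      (Dg q ∘ₗ HopfAlgebraStruct.antipode (ZMod 2)) (dl x ⊗ₜ[(ZMod 2)] dl (x⁻¹ * g)) = Ee q e (dl g)
    have h1 : ∀ x ∈ Finset.univ, bil (LinearMap.mulRight (ZMod 2) (Pe e) ∘ₗ Dg q)
        (Dg q ∘ₗ HopfAlgebraStruct.antipode (ZMod 2)) (dl x ⊗ₜ[(ZMod 2)] dl (x⁻¹ * g))
        = ∑ a, e a • (Lt a * Dg q (dl ((q a)⁻¹ * x) * dl (g⁻¹ * x))) := by
      intro x _
      rw [bil_tmul]
      change Dg q (dl x) * Pe e * Dg q (HopfAlgebraStruct.antipode (ZMod 2) (dl (x⁻¹ * g))) = _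
      rw [antipode_dl, mul_inv_rev, inv_inv, Pe, Finset.mul_sum, Finset.sum_mul]
      refine Finset.sum_congr rfl fun a _ => ?_
      rw [mul_smul_comm, smul_mul_assoc, Dg_Lt, mul_assoc, Dg_mul]
    rw [Finset.sum_congr rfl h1, Finset.sum_comm, Ee]
    refine Finset.sum_congr rfl fun a _ => ?_
    rw [← Finset.smul_sum, mul_comm, mul_smul]
    congr 1
    rw [← Finset.mul_sum, ← map_sum, dl_apply]
    by_cases hg : q a = g
    · rw [if_pos hg, one_smul]
      have h2 : ∀ x ∈ Finset.univ, (dl ((q a)⁻¹ * x) * dl (g⁻¹ * x) : Fun (ZMod 2) K)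
          = dl ((q a)⁻¹ * x) := by
        intro x _
        rw [dl_mul, hg, if_pos rfl]
      have h3 : ∑ x, (dl ((q a)⁻¹ * x) : Fun (ZMod 2) K) = 1 := by
        rw [one_eq]
        exact Fintype.sum_equiv (Equiv.mulLeft (q a)⁻¹) _ _ fun x => rfl
      rw [Finset.sum_congr rfl h2, h3, Dg_one, mul_one]
    · rw [if_neg hg, zero_smul]
      have h2 : ∀ x ∈ Finset.univ, (dl ((q a)⁻¹ * x) * dl (g⁻¹ * x) : Fun (ZMod 2) K) = 0 := by
        intro x _
        rw [dl_mul, if_neg]
        intro h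
        rw [mul_left_inj, inv_inj] at h
        exact hg h
      rw [Finset.sum_eq_zero h2, map_zero, mul_zero]
  exact LinearMap.congr_fun key f

/-- Compression to the range of `P`. -/
def cp (T : Module.End (ZMod 2) (Γ → ZMod 2)) : Module.End (ZMod 2) (LinearMap.range (Pe e)) :=
  (Pe e).rangeRestrict ∘ₗ T ∘ₗ (LinearMap.range (Pe e)).subtype

variable (hP : Pe e * Pe e = Pe e)

theorem cp_apply (T : Module.End (ZMod 2) (Γ → ZMod 2)) (v : LinearMap.range (Pe e)) :
    (cp T v : (Γ → ZMod 2)) = Pe e (T v) := rfl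

include hP in
theorem Pe_coe (v : LinearMap.range (Pe e)) : Pe e (v : (Γ → ZMod 2)) = v := by
  obtain ⟨_, w, rfl⟩ := v
  change Pe e (Pe e w) = Pe e w
  rw [← Module.End.mul_apply, hP]

include hP in
theorem cp_mul (T T' : Module.End (ZMod 2) (Γ → ZMod 2)) :
    (cp T * cp T' : Module.End (ZMod 2) (LinearMap.range (Pe e))) = cp (T * Pe e * T') := by
  ext1 v
  apply Subtype.ext
  rfl

include hP in
theorem cp_mul_Pe (T : Module.End (ZMod 2) (Γ → ZMod 2)) :
    (cp (T * Pe e) : Module.End (ZMod 2) (LinearMap.range (Pe e))) = cp T := by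
  ext1 v
  apply Subtype.ext
  rw [cp_apply, cp_apply, Module.End.mul_apply, Pe_coe hP]

include hP in
theorem cp_Pe_mul (T : Module.End (ZMod 2) (Γ → ZMod 2)) :
    (cp (Pe e * T) : Module.End (ZMod 2) (LinearMap.range (Pe e))) = cp T := by
  ext1 v
  apply Subtype.ext
  rw [cp_apply, cp_apply, Module.End.mul_apply, ← Module.End.mul_apply, hP]

include hP in
theorem cp_one : (cp 1 : Module.End (ZMod 2) (LinearMap.range (Pe e))) = 1 := by
  ext1 v
  apply Subtype.ext
  rw [cp_apply, Module.End.one_apply, Pe_coe hP]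
  rfl

/-- `cp` as a linear map. -/
def cpL : Module.End (ZMod 2) (Γ → ZMod 2) →ₗ[(ZMod 2)] Module.End (ZMod 2) (LinearMap.range (Pe e)) where
  toFun := cp
  map_add' T T' := by
    ext1 v; apply Subtype.ext
    change Pe e (T v + T' v) = Pe e (T v) + Pe e (T' v)
    rw [map_add]
  map_smul' c T := by
    ext1 v; apply Subtype.ext
    change Pe e (c • T v) = c • Pe e (T v)
    rw [map_smul]

/-- The partial representation. -/
def piR : Fun (ZMod 2) K →ₗ[(ZMod 2)] Module.End (ZMod 2) (LinearMap.range (Pe e)) := cpL ∘ₗ Dg q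

theorem piR_apply (f : Fun (ZMod 2) K) : (piR q f : Module.End (ZMod 2) (LinearMap.range (Pe e)))
    = cp (Dg q f) := rfl

include hP in
theorem isParRep (hconj : ∀ a g, e (g * a * g⁻¹) = e a) : IsParRep (piR q (e := e)) where
  one := by rw [piR_apply, Dg_one, cp_one hP]
  left h x := by
    have h1 : ∀ t : Fun (ZMod 2) K ⊗[(ZMod 2)] Fun (ZMod 2) K,
        bil (LinearMap.mulLeft (ZMod 2) (piR q (e := e) h) ∘ₗ piR q (e := e))
          (piR q (e := e) ∘ₗ HopfAlgebraStruct.antipode (ZMod 2)) t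
        = cp (Dg q h * Pe e * bil (LinearMap.mulRight (ZMod 2) (Pe e) ∘ₗ Dg q)
          (Dg q ∘ₗ HopfAlgebraStruct.antipode (ZMod 2)) t) := by
      intro t
      induction t using TensorProduct.induction_on with
      | zero =>
        rw [map_zero, map_zero, mul_zero]
        exact (map_zero (cpL (e := e))).symm
      | tmul a b =>
        rw [bil_tmul, bil_tmul]
        change cp (Dg q h) * cp (Dg q a) * cp (Dg q (HopfAlgebraStruct.antipode (ZMod 2) b)) = _
        rw [cp_mul hP, cp_mul hP]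
        congr 1
      | add x y hx hy =>
        rw [map_add, map_add, hx, hy, mul_add]
        exact (map_add (cpL (e := e)) _ _).symm
    have h2 : ∀ t : Fun (ZMod 2) K ⊗[(ZMod 2)] Fun (ZMod 2) K,
        bil (piR q (e := e) ∘ₗ LinearMap.mulLeft (ZMod 2) h)
          (piR q (e := e) ∘ₗ HopfAlgebraStruct.antipode (ZMod 2)) t
        = cp (Dg q h * bil (LinearMap.mulRight (ZMod 2) (Pe e) ∘ₗ Dg q)
          (Dg q ∘ₗ HopfAlgebraStruct.antipode (ZMod 2)) t) := by
      intro t
      induction t using TensorProduct.induction_on with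
      | zero =>
        rw [map_zero, map_zero, mul_zero]
        exact (map_zero (cpL (e := e))).symm
      | tmul a b =>
        rw [bil_tmul, bil_tmul]
        change cp (Dg q (h * a)) * cp (Dg q (HopfAlgebraStruct.antipode (ZMod 2) b)) = _
        rw [cp_mul hP, ← Dg_mul]
        congr 1
      | add x y hx hy =>
        rw [map_add, map_add, hx, hy, mul_add]
        exact (map_add (cpL (e := e)) _ _).symm
    rw [h1, h2, bil_comul, mul_assoc, ← Ee_Pe q hconj, ← mul_assoc, cp_mul_Pe hP]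
  right h x := by
    have h1 : ∀ t : Fun (ZMod 2) K ⊗[(ZMod 2)] Fun (ZMod 2) K,
        bil (piR q (e := e))
          (LinearMap.mulRight (ZMod 2) (piR q (e := e) x) ∘ₗ piR q (e := e) ∘ₗ
            HopfAlgebraStruct.antipode (ZMod 2)) t
        = cp (bil (LinearMap.mulRight (ZMod 2) (Pe e) ∘ₗ Dg q)
          (Dg q ∘ₗ HopfAlgebraStruct.antipode (ZMod 2)) t * Pe e * Dg q x) := by
      intro t
      induction t using TensorProduct.induction_on with
      | zero =>
        rw [map_zero, map_zero, zero_mul, zero_mul]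
        exact (map_zero (cpL (e := e))).symm
      | tmul a b =>
        rw [bil_tmul, bil_tmul]
        change cp (Dg q a) * (cp (Dg q (HopfAlgebraStruct.antipode (ZMod 2) b)) * cp (Dg q x)) = _
        rw [cp_mul hP, cp_mul hP]
        congr 1
      | add x y hx hy =>
        rw [map_add, map_add, hx, hy, add_mul, add_mul]
        exact (map_add (cpL (e := e)) _ _).symm
    have h2 : ∀ t : Fun (ZMod 2) K ⊗[(ZMod 2)] Fun (ZMod 2) K,
        bil (piR q (e := e))
          (piR q (e := e) ∘ₗ LinearMap.mulRight (ZMod 2) x ∘ₗ HopfAlgebraStruct.antipode (ZMod 2)) t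
        = cp (bil (LinearMap.mulRight (ZMod 2) (Pe e) ∘ₗ Dg q)
          (Dg q ∘ₗ HopfAlgebraStruct.antipode (ZMod 2)) t * Dg q x) := by
      intro t
      induction t using TensorProduct.induction_on with
      | zero =>
        rw [map_zero, map_zero, zero_mul]
        exact (map_zero (cpL (e := e))).symm
      | tmul a b =>
        rw [bil_tmul, bil_tmul]
        change cp (Dg q a) * cp (Dg q (HopfAlgebraStruct.antipode (ZMod 2) b * x)) = _
        rw [cp_mul hP, ← Dg_mul]
        congr 1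
      | add x y hx hy =>
        rw [map_add, map_add, hx, hy, add_mul]
        exact (map_add (cpL (e := e)) _ _).symm
    rw [h1, h2, bil_comul, Ee_Pe q hconj, mul_assoc, cp_Pe_mul hP]

end construction

end Pool.Agent.X86.PH
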