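import Mathlib
import Pool.Agent.X86.PH.Construct

set_option linter.unusedSectionVars false

namespace Pool.Agent.X86.PH

open TensorProduct

variable {Γ K : Type} [Group Γ] [Fintype Γ] [DecidableEq Γ] [Group K] [Fintype K] [DecidableEq K]
  (q : Γ →* K) {e : Γ → ZMod 2}

theorem bil_piR (hP : Pe e * Pe e = Pe e) (t : Fun (ZMod 2) K ⊗[ZMod 2] Fun (ZMod 2) K) :
    bil (piR q (e := e)) (piR q (e := e) ∘ₗ HopfAlgebraStruct.antipode (ZMod 2)) t
      = cp (bil (LinearMap.mulRight (ZMod 2) (Pe e) ∘ₗ Dg q)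
          (Dg q ∘ₗ HopfAlgebraStruct.antipode (ZMod 2)) t) := by
  induction t using TensorProduct.induction_on with
  | zero =>
    rw [map_zero, map_zero]
    exact (map_zero (cpL (e := e))).symm
  | tmul a b =>
    rw [bil_tmul, bil_tmul]
    change cp (Dg q a) * cp (Dg q (HopfAlgebraStruct.antipode (ZMod 2) b)) = _
    rw [cp_mul hP]
    rfl
  | add x y hx hy =>
    rw [map_add, map_add, hx, hy]
    exact (map_add (cpL (e := e)) _ _).symm

theorem hpar_not_semisimple (hidem : ∀ c, ∑ a, e a * e (a⁻¹ * c) = e c)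
    (hconj : ∀ a g, e (g * a * g⁻¹) = e a) (z : Γ) (hz2 : z * z = 1)
    (hqz : q z = 1) (hker : ∀ a b, q a = q b → b = a ∨ b = z * a)
    (hsupp : ∀ a, e a ≠ 0 → e (z * a) = 0) (hgen : z ∈ Submonoid.closure {a | e a ≠ 0})
    (hne : ∃ a, e a ≠ 0) : ¬ IsSemisimpleRing (Hpar (ZMod 2) (Fun (ZMod 2) K)) := by
  have hP : Pe e * Pe e = Pe e := Pe_sq hidem
  have hπ := isParRep q hP hconj
  obtain ⟨α, hα⟩ := hπ.exists_hom
  have hα' : α.toLinearMap ∘ₗ Hpar.ι = piR q (e := e) := by
    apply LinearMap.ext; exact hα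
  have h01 : ∀ x : ZMod 2, x ≠ 0 → x = 1 := by decide
  have hgens : ∀ a ∈ Submonoid.closure {a | e a ≠ 0},
      ∃ ζ, α ζ = (cp (Lt a) : Module.End (ZMod 2) (LinearMap.range (Pe e))) := by
    intro a ha
    induction ha using Submonoid.closure_induction with
    | mem a ha =>
      refine ⟨bil Hpar.ι (Hpar.ι ∘ₗ HopfAlgebraStruct.antipode (ZMod 2))
        (CoalgebraStruct.comul (R := ZMod 2) (dl (q a))), ?_⟩
      rw [map_bil, hα', ← LinearMap.comp_assoc, hα', bil_piR q hP, bil_comul]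
      congr 1
      rw [Ee, Finset.sum_eq_single a]
      · rw [dl_apply, if_pos rfl, one_mul, h01 _ ha, one_smul]
      · intro b _ hb
        rw [dl_apply]
        by_cases hqb : q b = q a
        · rcases hker a b hqb.symm with h | h
          · exact absurd h hb
          · rw [h, hsupp a ha, mul_zero, zero_smul]
        · rw [if_neg hqb, zero_mul, zero_smul]
      · intro h
        exact absurd (Finset.mem_univ a) h
    | one => exact ⟨1, by rw [map_one, Lt_one, cp_one hP]⟩
    | mul a b _ _ ha hb =>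
      obtain ⟨x, hx⟩ := ha
      obtain ⟨y, hy⟩ := hb
      refine ⟨x * y, ?_⟩
      rw [map_mul, hx, hy, cp_mul hP, Lt_Pe hconj, mul_assoc, cp_Pe_mul hP, Lt_mul]
  obtain ⟨ζ, hζ⟩ := hgens z hgen
  have hcc : (cp (Lt z) : Module.End (ZMod 2) (LinearMap.range (Pe e))) * cp (Lt z) = 1 := by
    rw [cp_mul hP, Lt_Pe hconj, mul_assoc, cp_Pe_mul hP, Lt_mul, hz2, Lt_one, cp_one hP]
  refine not_semisimple α (ζ - 1) ?_ ?_ ?_
  · rw [map_sub, map_one, hζ]
    intro h0
    rw [sub_eq_zero] at h0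
    obtain ⟨a, ha⟩ := hne
    let d : Γ → ZMod 2 := fun g => if g = 1 then 1 else 0
    have hPd : ∀ g, Pe e d g = e g := by
      intro g
      rw [Pe, LinearMap.sum_apply, Finset.sum_apply, Finset.sum_eq_single g]
      · change e g * (if g⁻¹ * g = 1 then 1 else 0) = e g
        rw [inv_mul_cancel, if_pos rfl, mul_one]
      · intro b _ hb
        change e b * (if b⁻¹ * g = 1 then 1 else 0) = 0
        rw [if_neg, mul_zero]
        intro h
        rw [inv_mul_eq_one] at h
        exact hb h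
      · intro h
        exact absurd (Finset.mem_univ g) h
    have h1 := congrArg (fun T : Module.End (ZMod 2) (LinearMap.range (Pe e)) =>
      (T ⟨Pe e d, d, rfl⟩ : Γ → ZMod 2)) h0
    change Pe e (Lt z (Pe e d)) = Pe e d at h1
    have hPP : Pe e (Pe e d) = Pe e d := by rw [← Module.End.mul_apply, hP]
    rw [← Module.End.mul_apply, ← Lt_Pe hconj, Module.End.mul_apply, hPP] at h1
    have h2 := congrFun h1 a
    change Pe e d (z⁻¹ * a) = Pe e d a at h2
    rw [hPd, hPd] at h2
    have hzinv : z⁻¹ = z := inv_eq_of_mul_eq_one_left hz2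
    rw [hzinv, hsupp a ha] at h2
    exact ha h2.symm
  · rw [map_sub, map_one, hζ, sub_mul, mul_sub, hcc, mul_one, one_mul]
    have h2 : ∀ T : Module.End (ZMod 2) (LinearMap.range (Pe e)), T + T = 0 := by
      intro T
      have : T + T = (2 : ZMod 2) • T := by rw [two_smul]
      rw [this, show (2 : ZMod 2) = 0 from rfl, zero_smul]
    have h3 := h2 (1 - cp (Lt z))
    rw [← h3]
    abel
  · intro f
    rw [map_sub, map_one, hζ, hα, piR_apply, sub_mul, mul_sub, one_mul, mul_one, cp_mul hP,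
      cp_mul hP, Lt_Pe hconj, mul_assoc, cp_Pe_mul hP, mul_assoc (Dg q f), ← Lt_Pe hconj,
      ← mul_assoc, cp_mul_Pe hP]
    congr 2
    refine LinearMap.ext fun w => funext fun g => ?_
    change f (q (z⁻¹ * g)) * w (z⁻¹ * g) = f (q g) * w (z⁻¹ * g)
    rw [map_mul, map_inv, hqz, inv_one, one_mul]

end Pool.Agent.X86.PH
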