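import Mathlib
import Pool.Agent.X86.PH.NotSemisimple

set_option linter.unusedSectionVars false

namespace Pool.Agent.X86.PH

/-- `tr (a⁻¹ c) ∈ {2, -1}`. -/
def tst (c a : ℕ × ℕ × ℕ × ℕ) : Bool :=
  let v := (a.2.2.2 * c.1 + (5 - a.2.1) * c.2.2.1 + (5 - a.2.2.1) * c.2.1 + a.1 * c.2.2.2) % 5
  v == 2 || v == 4

def trOK (c : ℕ × ℕ × ℕ × ℕ) : Bool :=
  let v := (c.1 + c.2.2.2) % 5
  v == 2 || v == 4

def detOK (c : ℕ × ℕ × ℕ × ℕ) : Bool :=
  (c.1 * c.2.2.2 + (5 - c.2.1) * c.2.2.1) % 5 == 1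

def r5 : List ℕ := [0, 1, 2, 3, 4]

def all4 : List (ℕ × ℕ × ℕ × ℕ) :=
  r5.flatMap fun x => r5.flatMap fun y => r5.flatMap fun z => r5.map fun w => (x, y, z, w)

def par (c : ℕ × ℕ × ℕ × ℕ) : List (ℕ × ℕ × ℕ × ℕ) → Bool
  | [] => false
  | a :: l => xor (tst c a) (par c l)

def L120 : List (ℕ × ℕ × ℕ × ℕ) := all4.filter detOK

set_option maxRecDepth 100000 in
theorem chk : (L120.all fun c => par c (L120.filter trOK) == trOK c) = true := by decide

set_option maxRecDepth 100000 in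
theorem L120_nodup : L120.Nodup := by decide

theorem mem_r5 {x : ℕ} : x ∈ r5 ↔ x < 5 := by
  simp only [r5, List.mem_cons, List.not_mem_nil, or_false]
  omega

theorem mem_all4 {m : ℕ × ℕ × ℕ × ℕ} :
    m ∈ all4 ↔ m.1 < 5 ∧ m.2.1 < 5 ∧ m.2.2.1 < 5 ∧ m.2.2.2 < 5 := by
  obtain ⟨x, y, z, w⟩ := m
  simp only [all4, List.mem_flatMap, List.mem_map, mem_r5, Prod.mk.injEq]
  constructor
  · rintro ⟨x, hx, y, hy, z, hz, w, hw, rfl, rfl, rfl, rfl⟩
    exact ⟨hx, hy, hz, hw⟩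
  · rintro ⟨hx, hy, hz, hw⟩
    exact ⟨x, hx, y, hy, z, hz, w, hw, rfl, rfl, rfl, rfl⟩

abbrev SL := Matrix.SpecialLinearGroup (Fin 2) (ZMod 5)

/-- The entries of a matrix as natural numbers. -/
def code (g : SL) : ℕ × ℕ × ℕ × ℕ :=
  ((g.1 0 0).val, (g.1 0 1).val, (g.1 1 0).val, (g.1 1 1).val)

theorem code_inj : Function.Injective code := by
  intro g h hgh
  simp only [code, Prod.mk.injEq] at hgh
  obtain ⟨h1, h2, h3, h4⟩ := hgh
  have v := ZMod.val_injective 5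
  ext i j
  fin_cases i <;> fin_cases j
  · exact v h1
  · exact v h2
  · exact v h3
  · exact v h4

theorem val5 (x : ZMod 5) : ((5 - x.val : ℕ) : ZMod 5) = -x := by
  rw [Nat.cast_sub (ZMod.val_lt x).le, ZMod.natCast_zmod_val]
  have : ((5 : ℕ) : ZMod 5) = 0 := by decide
  rw [this, zero_sub]

theorem mod5 (n k : ℕ) (x : ZMod 5) (hx : ((n : ℕ) : ZMod 5) = x) (hk : k < 5) :
    n % 5 = k ↔ x = (k : ZMod 5) := by
  rw [← hx, ZMod.natCast_eq_natCast_iff', Nat.mod_eq_of_lt hk]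

theorem detOK_iff (x y z w : ZMod 5) : detOK (x.val, y.val, z.val, w.val) = true ↔
    x * w - y * z = 1 := by
  have h : (((x.val * w.val + (5 - y.val) * z.val : ℕ)) : ZMod 5) = x * w - y * z := by
    push_cast [ZMod.natCast_zmod_val, val5]
    ring
  simp only [detOK, beq_iff_eq]
  rw [mod5 _ 1 _ h (by norm_num), Nat.cast_one]

theorem trOK_iff (x y z w : ZMod 5) : trOK (x.val, y.val, z.val, w.val) = true ↔
    (x + w = 2 ∨ x + w = 4) := by
  have h : (((x.val + w.val : ℕ)) : ZMod 5) = x + w := by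
    push_cast [ZMod.natCast_zmod_val]
    ring
  simp only [trOK, Bool.or_eq_true, beq_iff_eq]
  rw [mod5 _ 2 _ h (by norm_num), mod5 _ 4 _ h (by norm_num)]
  rfl

theorem tst_iff (c1 c2 c3 c4 x y z w : ZMod 5) :
    tst (c1.val, c2.val, c3.val, c4.val) (x.val, y.val, z.val, w.val) = true ↔
    (w * c1 - y * c3 - z * c2 + x * c4 = 2 ∨ w * c1 - y * c3 - z * c2 + x * c4 = 4) := by
  have h : (((w.val * c1.val + (5 - y.val) * c3.val + (5 - z.val) * c2.val + x.val * c4.val : ℕ))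
      : ZMod 5) = w * c1 - y * c3 - z * c2 + x * c4 := by
    push_cast [ZMod.natCast_zmod_val, val5]
    ring
  simp only [tst, Bool.or_eq_true, beq_iff_eq]
  rw [mod5 _ 2 _ h (by norm_num), mod5 _ 4 _ h (by norm_num)]
  rfl

theorem det_eq (g : SL) : g.1 0 0 * g.1 1 1 - g.1 0 1 * g.1 1 0 = 1 := by
  rw [← Matrix.det_fin_two]; exact g.2

theorem image_code : (Finset.univ.image code : Finset _) = L120.toFinset := by
  ext m
  rw [Finset.mem_image, List.mem_toFinset, L120, List.mem_filter, mem_all4]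
  constructor
  · rintro ⟨g, _, rfl⟩
    exact ⟨⟨ZMod.val_lt (g.1 0 0), ZMod.val_lt (g.1 0 1), ZMod.val_lt (g.1 1 0),
      ZMod.val_lt (g.1 1 1)⟩, (detOK_iff _ _ _ _).2 (det_eq g)⟩
  · obtain ⟨x, y, z, w⟩ := m
    rintro ⟨⟨hx, hy, hz, hw⟩, hd⟩
    have vx : ((x : ZMod 5)).val = x := ZMod.val_cast_of_lt hx
    have vy : ((y : ZMod 5)).val = y := ZMod.val_cast_of_lt hy
    have vz : ((z : ZMod 5)).val = z := ZMod.val_cast_of_lt hz
    have vw : ((w : ZMod 5)).val = w := ZMod.val_cast_of_lt hw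
    rw [← vx, ← vy, ← vz, ← vw, detOK_iff] at hd
    refine ⟨⟨!![(x : ZMod 5), (y : ZMod 5); (z : ZMod 5), (w : ZMod 5)], ?_⟩,
      Finset.mem_univ _, ?_⟩
    · rw [Matrix.det_fin_two_of]; exact hd
    · simp only [code]
      exact Prod.ext vx (Prod.ext vy (Prod.ext vz vw))

/-- The idempotent: the sum of the elements of odd order. -/
def ee (g : SL) : ZMod 2 := if trOK (code g) then 1 else 0

theorem trOK_code (g : SL) : trOK (code g) = true ↔
    (g.1 0 0 + g.1 1 1 = 2 ∨ g.1 0 0 + g.1 1 1 = 4) := trOK_iff _ _ _ _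

theorem ee_mul (a c : SL) : ee a * ee (a⁻¹ * c)
    = if trOK (code a) && tst (code c) (code a) then 1 else 0 := by
  have h : trOK (code (a⁻¹ * c)) = tst (code c) (code a) := by
    rw [Bool.eq_iff_iff, trOK_code]
    refine Iff.trans ?_ (tst_iff _ _ _ _ _ _ _ _).symm
    have h1 : (a⁻¹ * c).1 0 0 + (a⁻¹ * c).1 1 1
        = a.1 1 1 * c.1 0 0 - a.1 0 1 * c.1 1 0 - a.1 1 0 * c.1 0 1 + a.1 0 0 * c.1 1 1 := by
      have hinv : (a⁻¹).1 = !![a.1 1 1, -a.1 0 1; -a.1 1 0, a.1 0 0] := by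
        rw [Matrix.SpecialLinearGroup.coe_inv, Matrix.adjugate_fin_two]
      rw [Matrix.SpecialLinearGroup.coe_mul, hinv]
      simp [Matrix.mul_apply, Fin.sum_univ_two]
      ring
    rw [h1]
  rw [ee, ee, h]
  cases trOK (code a) <;> cases tst (code c) (code a) <;> simp

theorem par_sum (c : ℕ × ℕ × ℕ × ℕ) (l : List (ℕ × ℕ × ℕ × ℕ)) :
    (l.map fun m => if trOK m && tst c m then (1 : ZMod 2) else 0).sum
      = if par c (l.filter trOK) then 1 else 0 := by
  induction l with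
  | nil => simp [par]
  | cons a l ih =>
    rw [List.map_cons, List.sum_cons, ih]
    cases h : trOK a
    · simp [h]
    · simp only [List.filter_cons, h, Bool.true_and, if_true, par]
      cases tst c a <;> cases par c (l.filter trOK) <;> decide

theorem ee_idem (c : SL) : ∑ a, ee a * ee (a⁻¹ * c) = ee c := by
  rw [Finset.sum_congr rfl fun a _ => ee_mul a c]
  have h1 := Finset.sum_image (s := (Finset.univ : Finset SL)) (g := code)
    (f := fun m => if trOK m && tst (code c) m then (1 : ZMod 2) else 0)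
    (fun a _ b _ h => code_inj h)
  rw [← h1, image_code, List.sum_toFinset _ L120_nodup, par_sum]
  have h2 : code c ∈ L120 := by
    rw [← List.mem_toFinset, ← image_code]
    exact Finset.mem_image_of_mem _ (Finset.mem_univ c)
  have h3 := List.all_eq_true.1 chk (code c) h2
  rw [beq_iff_eq] at h3
  rw [h3, ee]

theorem ee_conj (a g : SL) : ee (g * a * g⁻¹) = ee a := by
  have h : trOK (code (g * a * g⁻¹)) = trOK (code a) := by
    rw [Bool.eq_iff_iff, trOK_code, trOK_code]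
    have h1 : (g * a * g⁻¹).1 0 0 + (g * a * g⁻¹).1 1 1 = a.1 0 0 + a.1 1 1 := by
      rw [← Matrix.trace_fin_two, ← Matrix.trace_fin_two, Matrix.SpecialLinearGroup.coe_mul,
        Matrix.trace_mul_comm, ← Matrix.SpecialLinearGroup.coe_mul, inv_mul_cancel_left]
    rw [h1]
  rw [ee, ee, h]

theorem ee_ne {a : SL} : ee a ≠ 0 ↔ (a.1 0 0 + a.1 1 1 = 2 ∨ a.1 0 0 + a.1 1 1 = 4) := by
  rw [← trOK_code, ee]
  cases trOK (code a) <;> simp

theorem ee_supp (a : SL) (ha : ee a ≠ 0) : ee (-1 * a) = 0 := by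
  by_contra h
  have h' : ee (-1 * a) ≠ 0 := h
  rw [ee_ne] at ha h'
  have h1 : (-1 * a).1 0 0 + (-1 * a).1 1 1 = -(a.1 0 0 + a.1 1 1) := by
    rw [neg_one_mul, Matrix.SpecialLinearGroup.coe_neg]
    simp
    ring
  rw [h1] at h'
  revert ha h'
  generalize a.1 0 0 + a.1 1 1 = t
  revert t
  decide

theorem ee_gen : (-1 : SL) ∈ Submonoid.closure {a | ee a ≠ 0} := by
  let a : SL := ⟨!![0, 1; 4, 2], by decide⟩
  let b : SL := ⟨!![0, 1; 4, 4], by decide⟩
  let c : SL := ⟨!![3, 4; 3, 1], by decide⟩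
  have h : (-1 : SL) = a * b * c := by
    ext i j
    fin_cases i <;> fin_cases j <;> decide
  rw [h]
  refine mul_mem (mul_mem ?_ ?_) ?_ <;>
  · apply Submonoid.subset_closure
    change ee _ ≠ 0
    rw [ee_ne]
    decide

end Pool.Agent.X86.PH
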